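import Pool.Agent.P.MP_d72269_lc.Main

/-!
Every analytic or universally Baire `(n+1)`-coherent family `Φ` has a trivialisation obtained from
`Φ` by finitely many continuous substitutions; it is continuous, analytic or universally Baire
whenever `Φ` is.
-/

namespace Pool.Agent.Results.MP_d72269_lc.ContinuousSubstitution

open Pool.Agent.P.MP_d72269_lc

theorem result (n : ℕ) (Φ : Chain (n + 1) → ℕ × ℕ → ℤ)
    (hΦ : AnalyticFamily Φ ∨ UnivBaireFamily Φ) (hc : Coherent Φ) :
    ∃ Ψ : Chain n → ℕ × ℕ → ℤ, Trivialises Ψ Φ ∧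
      (∃ (m : ℕ) (ε : Fin m → ℤ) (γ : Fin m → ℕ × ℕ → Chain n → Chain (n + 1)),
        (∀ j x, Continuous (γ j x)) ∧
        ∀ g, Ψ g = (dom g).indicator fun x => ∑ j, ε j * Φ (γ j x g) x) ∧
      (Continuous Φ → Continuous Ψ) ∧ (AnalyticFamily Φ → AnalyticFamily Ψ) ∧
      UnivBaireFamily Ψ :=
  main hΦ hc

end Pool.Agent.Results.MP_d72269_lc.ContinuousSubstitution
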